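import Pool.Agent.Q278.BlkCyc
import Pool.Agent.Q278.SixPhi

set_option autoImplicit false

/-! A q-analogue of Liu's supercongruence for `n ≡ 1 (mod 4)`. -/

namespace Pool.Agent.Results.MP_c9c571_nt.Full

open Finset Polynomial Q278.Loc Q278.Cyc Q278.Unit Q278.Smooth Q278.Blk

/-- The summand `a_k(q)`. -/
noncomputable def a (k : ℕ) : RatFunc ℚ := RatFunc.X ^ k * ((1 + RatFunc.X ^ (4 * k + 1)) /
  (1 + RatFunc.X)) * ∏ j ∈ range k, ((1 - RatFunc.X ^ (4 * j + 2)) /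
    (1 - RatFunc.X ^ (4 * j + 4))) ^ 3

/-- The factor `R_n(q)`, for odd `n`. -/
noncomputable def R (n : ℕ) : RatFunc ℚ := RatFunc.X ^ ((1 - (n : ℤ)) / 2) *
  (∑ i ∈ range n, (RatFunc.X ^ 2) ^ i) * ∏ j ∈ range ((n - 1) / 2),
    ((1 - RatFunc.X ^ (4 * j + 3)) / (1 - RatFunc.X ^ (4 * j + 5)))

/-- `c_k = (1/2)_k³ / k!³`. -/
def cc (k : ℕ) : ℚ := (∏ i ∈ range k, ((1 : ℚ) / 2 + i)) ^ 3 / (k.factorial : ℚ) ^ 3

theorem cc_eq (k : ℕ) : ((cc k : ℚ) : RatFunc ℚ) = (c (RatFunc ℚ) k) ^ 3 := by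
  have h : ∀ k, (∏ i ∈ range k, ((1 : ℚ) / 2 + i)) / (k.factorial : ℚ) =
      ∏ i ∈ range k, (((2 * i + 1 : ℕ) : ℚ) / ((2 * i + 2 : ℕ) : ℚ)) := by
    intro k
    induction k with
    | zero => simp
    | succ k ih =>
      rw [prod_range_succ, prod_range_succ, ← ih, Nat.factorial_succ]
      have : (k.factorial : ℚ) ≠ 0 := by exact_mod_cast k.factorial_ne_zero
      push_cast
      field_simp
      ring
  unfold cc c
  rw [← div_pow, h]
  push_cast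
  rfl

section loc

variable {n N : ℕ} {η : ℂ}

/-- the terms, with parameter `s` -/
noncomputable def f (n i : ℕ) (s : ℤ) : RatFunc ℚ :=
  q ^ i * (1 + ((q ^ 2) ^ n) ^ s * q ^ (4 * i + 1)) * rs n (q ^ 2) s i ^ 3

variable (hη : IsPrimitiveRoot η n) (hn : n = 2 * N + 1)
include hη hn

theorem HH : H (Reg η) (Φ n) n N (q ^ 2) := cycH hη hn (by
  rw [Nat.coprime_two_right]; exact ⟨N, hn⟩) two_pos

theorem sm_f {i : ℕ} (hi : i ≤ N) : Sm (Reg η) (Φ n) 2 0 (f n i) := by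
  have h := HH hη hn
  unfold f
  have h1 : Sm (Reg η) (Φ n) 2 0 (fun s : ℤ => q ^ i) := Sm.const h.hπ (of_O (q_pow_mem η i))
  have h2 := h.sm_fac 2 (-q ^ (4 * i + 1)) ((Reg η).neg_mem (q_pow_mem η _))
  have h3 := Sm.pow h.hπ (h.sm_rs 2 hi) 3
  have h4 := Sm.mul h.hπ (Sm.mul h.hπ h1 h2) h3
  convert h4 using 2 with s
  ring

theorem one_add_ne : U (Reg η) (1 + q) := by
  have h := HH hη hn
  have h1 : ev η (1 + q) = 1 + η := by rw [ev_add (Reg η).one_mem (X_mem η), ev_one, ev_X]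
  apply U_of_ev ((Reg η).add_mem (Reg η).one_mem (X_mem η))
  rw [h1]
  intro h2
  have h3 : η = -1 := by linear_combination h2
  have h4 := hη.pow_eq_one
  rw [h3, hn, pow_succ, pow_mul] at h4
  norm_num at h4

/-- the blocks -/
theorem a_block (j i : ℕ) : a (n * j + i) = ((q ^ n) ^ j * r (q ^ 2) (n * j) ^ 3 / (1 + q)) *
    f n i (2 * j) := by
  have h := HH hη hn
  have e0 : ∀ k, ∏ j ∈ range k, ((1 - RatFunc.X ^ (4 * j + 2)) /
      (1 - RatFunc.X ^ (4 * j + 4))) ^ 3 = (r (q ^ 2) k) ^ 3 := by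
    intro k
    unfold r
    rw [prod_pow]
    congr 1
    apply prod_congr rfl
    intro l _
    rw [← pow_mul, ← pow_mul]
    congr 3 <;> ring
  unfold a f
  rw [e0, r_split (n := n)]
  have e1 : (((q ^ 2) ^ n) ^ (2 * (j : ℤ))) = q ^ (4 * n * j) := by
    rw [show (2 * (j : ℤ)) = ((2 * j : ℕ) : ℤ) by push_cast; rfl, zpow_natCast, ← pow_mul,
      ← pow_mul]
    congr 1; ring
  rw [e1]
  have e2 : q ^ (4 * (n * j + i) + 1) = q ^ (4 * n * j) * q ^ (4 * i + 1) := by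
    rw [← pow_add]; congr 1; ring
  have e3 : (RatFunc.X : RatFunc ℚ) ^ (n * j + i) = (q ^ n) ^ j * q ^ i := by
    rw [pow_add, pow_mul]
  rw [e2, e3]
  ring

/-- the reversal -/
theorem f_rev {i : ℕ} (hi : i ≤ N) : f n (N - i) (-1) =
    (q⁻¹ * q ^ N * rs n (q ^ 2) (-1) N ^ 3) * f n i 0 := by
  have h := HH hη hn
  unfold f
  rw [h.rev i hi, rs_zero, zpow_zero, zpow_neg_one, one_mul]
  have hq : q ≠ 0 := q_ne
  have e1 : ((q ^ 2) ^ n)⁻¹ * q ^ (4 * (N - i) + 1) = (q ^ (4 * i + 1))⁻¹ := by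
    have h2 : (q ^ 2) ^ n = q ^ (4 * (N - i) + 1) * q ^ (4 * i + 1) := by
      rw [← pow_mul, ← pow_add]; congr 1; omega
    rw [h2]; field_simp
  have e2 : q ^ N = q ^ (N - i) * q ^ i := by rw [← pow_add]; congr 1; omega
  rw [e1]
  have e3 : (1 + (q ^ (4 * i + 1))⁻¹) = (q ^ (4 * i + 1))⁻¹ * (1 + q ^ (4 * i + 1)) := by
    field_simp; ring
  have e4 : ((q ^ 2) ^ i) ^ 3 = q ^ i * q ^ i * q ^ (4 * i) := by ring
  have e5 : q ^ (4 * i) * (q ^ (4 * i + 1))⁻¹ = q⁻¹ := by rw [pow_succ]; field_simp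
  rw [e3, e2, mul_pow, mul_pow, e4]
  linear_combination (q ^ (N - i) * (1 + q ^ (4 * i + 1)) * rs n (q ^ 2) (-1) N ^ 3 * q ^ i *
    q ^ i * r (q ^ 2) i ^ 3) * e5

theorem F_rev : ∑ i ∈ range (N + 1), f n i (-1) =
    (q⁻¹ * q ^ N * rs n (q ^ 2) (-1) N ^ 3) * ∑ i ∈ range (N + 1), f n i 0 := by
  rw [← sum_range_reflect, mul_sum]
  apply sum_congr rfl
  intro i hi
  have := mem_range.1 hi
  rw [show N + 1 - 1 - i = N - i by omega]
  exact f_rev hη hn (by omega)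

/-! ### The first block -/

/-- the factors with the parameter `y` -/
noncomputable def Tf (y : RatFunc ℚ) (j : ℕ) : RatFunc ℚ :=
  ((1 - (q ^ 2) ^ (2 * j + 1)) *
    ((1 - (q ^ 2) ^ (2 * j + 1) * y) * (1 - (q ^ 2) ^ (2 * j + 1) * y⁻¹)) /
    ((1 - (q ^ 2) ^ (2 * j + 2)) *
    ((1 - (q ^ 2) ^ (2 * j + 2) * y) * (1 - (q ^ 2) ^ (2 * j + 2) * y⁻¹))))

/-- the products with the parameter `y` -/
noncomputable def T (y : RatFunc ℚ) (k : ℕ) : RatFunc ℚ := ∏ j ∈ range k, Tf y j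

theorem cg_T {k : ℕ} (hk : k ≤ N) :
    Cg (Reg η) (Φ n) 2 (r (q ^ 2) k ^ 3) (T ((q ^ 2) ^ n) k) := by
  have h := HH hη hn
  unfold r T Tf
  rw [← prod_pow]
  apply Cg.prod
  intro l hl
  have hl' := mem_range.1 hl
  obtain ⟨n1, n2⟩ := not_dvd_lt hn (show l < N by omega)
  have h1 := (Cg.refl (k := 2) (π := Φ n) (h.hu _ n1)).mul (h.pair_y n1)
  have h2 := (Cg.refl (k := 2) (π := Φ n) (h.hu _ n2)).mul (h.pair_y n2)
  have h3 := h1.mul h2.inv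
  rw [← div_eq_mul_inv, ← div_eq_mul_inv] at h3
  convert h3 using 1
  rw [div_pow]
  congr 1 <;> ring

theorem closed : ∑ k ∈ range (N + 1), q ^ k * (1 + q ^ (4 * k + 1)) * T ((q ^ 2) ^ n) k =
    (1 + q) * (q⁻¹ ^ N * ((1 - q ^ (2 * n)) / (1 - q ^ 2)) *
      ∏ j ∈ range N, ((1 - q ^ (4 * j + 3)) / (1 - q ^ (4 * j + 5)))) := by
  have h := HH hη hn
  have hq0 : q ≠ 0 := q_ne
  have hy : (q ^ 2) ^ n = q ^ (2 * n) := by rw [← pow_mul]
  rw [hy]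
  have hyn : ∀ j, j < N → 1 - q ^ (4 * j + 4) * (q ^ (2 * n))⁻¹ ≠ 0 := by
    intro j hj
    have h1 := (h.Us (-1) (not_dvd_lt hn hj).2).2.2
    rw [zpow_neg_one, hy, ← pow_mul, mul_comm] at h1
    rw [show 4 * j + 4 = 2 * (2 * j + 2) by ring]
    exact h1
  have hs := Q278.SixPhi.sum (q ^ 4) N (q ^ 2) ((q ^ (2 * n + 2))⁻¹) (q⁻¹)
    (fun j hj => by rw [← pow_mul]; exact one_sub_q_ne (by omega))
    (fun j hj => by
      rw [← pow_mul, ← pow_add]; exact one_sub_q_ne (by omega))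
    (fun j hj => by
      have h1 : q ^ 2 * (q ^ 4) ^ (j + 1) * (q ^ (2 * n + 2))⁻¹ =
          q ^ (4 * j + 4) * (q ^ (2 * n))⁻¹ := by
        rw [pow_add q (2 * n) 2]; field_simp; ring
      rw [h1]
      exact hyn j hj)
    (fun j hj => by
      have h1 : q ^ 2 * (q ^ 4) ^ (j + 1) * q⁻¹ = q ^ (4 * j + 5) := by
        field_simp; ring
      rw [h1]
      exact one_sub_q_ne (by omega))
  have hr : ∀ j, j < N → Q278.SixPhi.r (q ^ 4) (q ^ 2) ((q ^ (2 * n + 2))⁻¹) (q⁻¹) N j =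
      q * (Tf (q ^ (2 * n)) j * ((1 - q ^ (4 * j + 1)) / (1 - q ^ (4 * j + 5)))) := by
    intro j hj
    unfold Q278.SixPhi.r Tf
    have e0 : (q ^ 2) ^ (2 * j + 1) = q ^ (4 * j + 2) := by ring
    have e0' : (q ^ 2) ^ (2 * j + 2) = q ^ (4 * j + 4) := by ring
    have e1 : q ^ 2 * (q ^ 4) ^ j = q ^ (4 * j + 2) := by ring
    have e2 : (q ^ 4) ^ N - (q ^ 4) ^ j = (q ^ (2 * n) * (q ^ 2)⁻¹) *
        (1 - q ^ (4 * j + 2) * (q ^ (2 * n))⁻¹) := by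
      have h1 : (q ^ 4) ^ N * q ^ 2 = q ^ (2 * n) := by
        rw [← pow_mul, ← pow_add]; congr 1; omega
      rw [← h1]; field_simp; ring
    have e3 : (q ^ (2 * n + 2))⁻¹ - (q ^ 4) ^ j = ((q ^ (2 * n))⁻¹ * (q ^ 2)⁻¹) *
        (1 - q ^ (4 * j + 2) * q ^ (2 * n)) := by
      rw [pow_add q (2 * n) 2]; field_simp; ring
    have e4 : q⁻¹ - (q ^ 4) ^ j = q⁻¹ * (1 - q ^ (4 * j + 1)) := by
      field_simp; ring
    have e5 : (q ^ 4) ^ (j + 1) = q ^ (4 * j + 4) := by ring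
    have e6 : q ^ 2 * (q ^ 4) ^ (N + 1 + j) = q ^ (4 * j + 4) * q ^ (2 * n) := by
      rw [← pow_mul, ← pow_add, ← pow_add]; congr 1; omega
    have e7 : q ^ 2 * (q ^ 4) ^ (j + 1) * (q ^ (2 * n + 2))⁻¹ =
        q ^ (4 * j + 4) * (q ^ (2 * n))⁻¹ := by
      rw [pow_add q (2 * n) 2]; field_simp; ring
    have e8 : q ^ 2 * (q ^ 4) ^ (j + 1) * q⁻¹ = q ^ (4 * j + 5) := by
      field_simp; ring
    rw [e0, e0', e1, e2, e3, e4, e6, e7, e8, e5]
    have d2 : q ^ (2 * n) ≠ 0 := pow_ne_zero _ hq0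
    generalize 1 - q ^ (4 * j + 5) = u1 at *
    generalize 1 - q ^ (4 * j + 4) = u2 at *
    generalize 1 - q ^ (4 * j + 4) * q ^ (2 * n) = u3 at *
    generalize 1 - q ^ (4 * j + 4) * (q ^ (2 * n))⁻¹ = u4 at *
    generalize 1 - q ^ (4 * j + 2) = v2 at *
    generalize 1 - q ^ (4 * j + 2) * q ^ (2 * n) = v3 at *
    generalize 1 - q ^ (4 * j + 2) * (q ^ (2 * n))⁻¹ = v4 at *
    generalize 1 - q ^ (4 * j + 1) = v5 at *
    generalize q ^ (2 * n) = y at *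
    field_simp
  have htel : ∀ k, ∏ j ∈ range k, ((1 - q ^ (4 * j + 1)) / (1 - q ^ (4 * j + 5))) =
      (1 - q) / (1 - q ^ (4 * k + 1)) := by
    intro k
    induction k with
    | zero =>
      have := one_sub_q_ne (show 0 < 1 by norm_num)
      rw [pow_one] at this
      simp [div_self this]
    | succ k ih =>
      rw [prod_range_succ, ih]
      have h1 := one_sub_q_ne (show 0 < 4 * k + 1 by omega)
      rw [show 4 * (k + 1) + 1 = 4 * k + 5 by ring]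
      generalize 1 - q ^ (4 * k + 1) = x at *
      field_simp
  have hterm : ∀ k ∈ range (N + 1), (1 - q ^ 2 * (q ^ 4) ^ (2 * k)) * ∏ j ∈ range k,
      Q278.SixPhi.r (q ^ 4) (q ^ 2) ((q ^ (2 * n + 2))⁻¹) (q⁻¹) N j =
      (1 - q) * (q ^ k * (1 + q ^ (4 * k + 1)) * T (q ^ (2 * n)) k) := by
    intro k hk
    have hk' := mem_range.1 hk
    rw [prod_congr rfl (fun j hj => hr j (by have := mem_range.1 hj; omega))]
    rw [prod_mul_distrib, prod_mul_distrib, prod_const, card_range, htel]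
    have e1 : 1 - q ^ 2 * (q ^ 4) ^ (2 * k) = (1 - q ^ (4 * k + 1)) * (1 + q ^ (4 * k + 1)) := by
      ring
    rw [e1]
    have h1 := one_sub_q_ne (show 0 < 4 * k + 1 by omega)
    have hT : ∏ j ∈ range k, Tf (q ^ (2 * n)) j = T (q ^ (2 * n)) k := rfl
    rw [hT]
    generalize 1 - q ^ (4 * k + 1) = x at *
    generalize T (q ^ (2 * n)) k = t at *
    field_simp
  rw [sum_congr rfl hterm, ← mul_sum] at hs
  have h1q : (1 : RatFunc ℚ) - q ≠ 0 := by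
    have := one_sub_q_ne (show 0 < 1 by norm_num)
    rwa [pow_one] at this
  apply mul_left_cancel₀ h1q
  rw [hs]
  have h1q2 : (1 : RatFunc ℚ) - q ^ 2 ≠ 0 := one_sub_q_ne (by norm_num)
  have e9 : (1 - q) * ((1 + q) * (q⁻¹ ^ N * ((1 - q ^ (2 * n)) / (1 - q ^ 2)) *
      ∏ j ∈ range N, ((1 - q ^ (4 * j + 3)) / (1 - q ^ (4 * j + 5))))) =
      (1 - q ^ (2 * n)) * ∏ j ∈ range N, (q⁻¹ * ((1 - q ^ (4 * j + 3)) / (1 - q ^ (4 * j + 5)))) := by
    rw [prod_mul_distrib, prod_const, card_range]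
    have : (1 - q) * (1 + q) = 1 - q ^ 2 := by ring
    rw [← mul_assoc, this]
    field_simp
  rw [e9, prod_range_succ, show q ^ 2 * (q ^ 4) ^ N = q ^ (2 * n) by
    rw [← pow_mul, ← pow_add]; congr 1; omega]
  rw [mul_comm (∏ x ∈ range N, (1 - q ^ 2 * (q ^ 4) ^ x)), mul_assoc]
  congr 1
  -- reflect
  have e10 : ∀ j, j < N → (1 - q ^ 2 * (q ^ 4) ^ (j + 1) * (q ^ (2 * n + 2))⁻¹ * q⁻¹) /
      (1 - q ^ 2 * (q ^ 4) ^ (j + 1) * (q ^ (2 * n + 2))⁻¹) =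
      q⁻¹ * ((1 - q ^ (4 * (N - 1 - j) + 3)) / (1 - q ^ 2 * (q ^ 4) ^ (N - 1 - j))) := by
    intro j hj
    have e7 : q ^ 2 * (q ^ 4) ^ (j + 1) * (q ^ (2 * n + 2))⁻¹ = (q ^ (4 * (N - 1 - j) + 2))⁻¹ := by
      have h2 : q ^ (2 * n + 2) = q ^ 2 * (q ^ 4) ^ (j + 1) * q ^ (4 * (N - 1 - j) + 2) := by
        rw [← pow_mul, ← pow_add, ← pow_add]; congr 1; omega
      rw [h2]; field_simp
    have e8 : (q ^ (4 * (N - 1 - j) + 2))⁻¹ * q⁻¹ = (q ^ (4 * (N - 1 - j) + 3))⁻¹ := by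
      rw [← mul_inv, ← pow_succ]
    have e11 : q ^ 2 * (q ^ 4) ^ (N - 1 - j) = q ^ (4 * (N - 1 - j) + 2) := by
      rw [← pow_mul, ← pow_add]; congr 1; ring
    rw [e7, e8, e11]
    have h3 := one_sub_q_ne (show 0 < 4 * (N - 1 - j) + 2 by omega)
    have e12 : 1 - (q ^ (4 * (N - 1 - j) + 3))⁻¹ =
        -(q ^ (4 * (N - 1 - j) + 2) * q)⁻¹ * (1 - q ^ (4 * (N - 1 - j) + 3)) := by
      rw [← pow_succ]; field_simp; ring
    have e13 : 1 - (q ^ (4 * (N - 1 - j) + 2))⁻¹ =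
        -(q ^ (4 * (N - 1 - j) + 2))⁻¹ * (1 - q ^ (4 * (N - 1 - j) + 2)) := by
      field_simp; ring
    rw [e12, e13]
    have h4 : q ^ (4 * (N - 1 - j) + 2) ≠ 0 := pow_ne_zero _ hq0
    generalize 1 - q ^ (4 * (N - 1 - j) + 2) = x at *
    generalize 1 - q ^ (4 * (N - 1 - j) + 3) = z at *
    generalize q ^ (4 * (N - 1 - j) + 2) = v at *
    field_simp
  have e14 : ∏ j ∈ range N, ((1 - q ^ 2 * (q ^ 4) ^ (j + 1) * (q ^ (2 * n + 2))⁻¹ * q⁻¹) /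
      ((1 - q ^ 2 * (q ^ 4) ^ (j + 1) * (q ^ (2 * n + 2))⁻¹) *
        (1 - q ^ 2 * (q ^ 4) ^ (j + 1) * q⁻¹))) =
      (∏ j ∈ range N, (q⁻¹ * ((1 - q ^ (4 * j + 3)) / (1 - q ^ 2 * (q ^ 4) ^ j)))) *
        (∏ j ∈ range N, (1 - q ^ (4 * j + 5)))⁻¹ := by
    rw [← prod_range_reflect (fun j => q⁻¹ * ((1 - q ^ (4 * j + 3)) /
      (1 - q ^ 2 * (q ^ 4) ^ j))), ← prod_inv_distrib, ← prod_mul_distrib]
    apply prod_congr rfl
    intro j hj
    have hj' := mem_range.1 hj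
    rw [← e10 j hj', div_mul_eq_div_div, div_eq_mul_inv _ (1 - q ^ 2 * (q ^ 4) ^ (j + 1) * q⁻¹)]
    congr 3
    field_simp
    ring
  rw [e14, ← mul_assoc, ← prod_mul_distrib, ← prod_inv_distrib, ← prod_mul_distrib]
  apply prod_congr rfl
  intro j _
  have e1 : q ^ 2 * (q ^ 4) ^ j = q ^ (4 * j + 2) := by ring
  rw [e1]
  have h3 := one_sub_q_ne (show 0 < 4 * j + 2 by omega)
  generalize 1 - q ^ (4 * j + 2) = x at *
  field_simp

theorem F_zero : ∑ i ∈ range (N + 1), f n i 0 - (1 + q) * R n ∈ I (Reg η) (Φ n) 2 := by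
  have h1 : ∑ k ∈ range (N + 1), q ^ k * (1 + q ^ (4 * k + 1)) *
      (r (q ^ 2) k ^ 3 - T ((q ^ 2) ^ n) k) ∈ I (Reg η) (Φ n) 2 := by
    apply AddSubgroup.sum_mem
    intro k hk
    have hk' := mem_range.1 hk
    exact mul_O ((Reg η).mul_mem (q_pow_mem η k) ((Reg η).add_mem (Reg η).one_mem
      (q_pow_mem η _))) (cg_T hη hn (by omega)).2.2
  have e : R n = q⁻¹ ^ N * ((1 - q ^ (2 * n)) / (1 - q ^ 2)) *
      ∏ j ∈ range N, ((1 - q ^ (4 * j + 3)) / (1 - q ^ (4 * j + 5))) := by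
    unfold R
    rw [show (n - 1) / 2 = N by omega]
    congr 2
    · have : ((1 - (n : ℤ)) / 2) = -(N : ℤ) := by omega
      rw [this, zpow_neg, zpow_natCast, inv_pow]
    · have h2 := geom_sum_mul (q ^ 2) n
      rw [eq_div_iff (one_sub_q_ne (by norm_num)), pow_mul]
      linear_combination -h2
  rw [e, ← closed hη hn]
  convert h1 using 1
  rw [← sum_sub_distrib]
  apply sum_congr rfl
  intro k _
  unfold f
  rw [rs_zero, zpow_zero, one_mul]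
  ring

/-! ### The conclusion -/

theorem local_main {b : ℕ} (hb : N = 2 * b) (m : ℕ) : ∑ k ∈ range (n * m), a k -
    R n * ∑ k ∈ range m, ((cc k : ℚ) : RatFunc ℚ) ∈ I (Reg η) (Φ n) 2 := by
  have h := HH hη hn
  have hu := one_add_ne hη hn
  have hqn : U (Reg η) (q ^ n) := by
    have h1 := h.Uw
    have hη0 : η ≠ 0 := hη.ne_zero (by omega)
    exact U_of_ev (q_pow_mem η n) (ev_q_ne hη0 n)
  set κ := q⁻¹ * q ^ N * rs n (q ^ 2) (-1) N ^ 3 with hκ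
  set A : ℕ → RatFunc ℚ := fun j => (q ^ n) ^ j * r (q ^ 2) (n * j) ^ 3 / (1 + q) with hA
  have hU : ∀ j, U (Reg η) (A j) := fun j =>
    ((hqn.pow j).mul ((h.r_block j).1.pow 3)).div hu
  have hm := h.main a A (f n) (fun j => (hU j).1) (fun j i _ => a_block hη hn j i)
    (fun j i hi hin => by
      rw [a_block hη hn j i]
      refine mul_O (hU j).1 ?_
      unfold f
      have h1 := pow_I (h.tail j hi hin) 3
      rw [one_mul] at h1
      refine mul_O ((Reg η).mul_mem (q_pow_mem η i) ((Reg η).add_mem (Reg η).one_mem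
        ((Reg η).mul_mem (h.wz _).1 (q_pow_mem η _)))) (mono h.hπ (by norm_num) h1))
    (fun i hi => sm_f hη hn hi) m
  rw [F_rev hη hn, ← hκ] at hm
  set F := ∑ i ∈ range (N + 1), f n i 0 with hF
  -- `κ ≡ 1`
  have hwq : (1 : RatFunc ℚ) - q ^ n ∈ I (Reg η) (Φ n) 1 := by
    apply mem_I_one (by omega) hη (one_sub_mem η _)
    rw [ev_one_sub, hη.pow_eq_one, sub_self]
  have hq1 : U (Reg η) q := by
    have hη0 : η ≠ 0 := hη.ne_zero (by omega)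
    have := U_of_ev (q_pow_mem η 1) (ev_q_ne hη0 1)
    rwa [pow_one] at this
  have hκ1 : Cg (Reg η) (Φ n) 1 κ 1 := by
    have h1 := h.r_N
    have h2 := h.rev_N
    have h3 : rs n (q ^ 2) (-1) N = ((q ^ 2) ^ N)⁻¹ * (r (q ^ 2) N)⁻¹ := by
      rw [← mul_inv]; exact eq_inv_of_mul_eq_one_left h2
    rw [h3] at hκ
    have h4 := ((Cg.refl (hq1.inv.mul (hq1.pow N))).mul
      (((Cg.refl (h.hp.pow N).inv).mul h1.inv).pow 3))
    rw [← hκ] at h4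
    have e : q⁻¹ * q ^ N * (((q ^ 2) ^ N)⁻¹ *
        ((-1) ^ N * ((q ^ 2) ^ (N * (N + 1)))⁻¹)⁻¹) ^ 3 = (q ^ n) ^ (6 * b) * (q ^ n)⁻¹ := by
      have h5 : ((-1 : RatFunc ℚ)) ^ N = 1 := by rw [hb, pow_mul]; norm_num
      have h6 : q ^ N * (((q ^ 2) ^ (N * (N + 1))) ^ 3) * q ^ n =
          q * ((q ^ 2) ^ N) ^ 3 * (q ^ n) ^ (6 * b) := by
        simp only [← pow_mul, ← pow_succ', ← pow_add]
        congr 1
        rw [hn, hb]; ring
      have hq := hq1.2.2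
      have a1 : q ^ n ≠ 0 := pow_ne_zero _ hq
      have a2 : (q ^ 2) ^ N ≠ 0 := pow_ne_zero _ (pow_ne_zero _ hq)
      rw [h5, one_mul, inv_inv]
      rw [eq_mul_inv_iff_mul_eq₀ a1]
      generalize (q ^ 2) ^ N = x at *
      generalize (q ^ n) ^ (6 * b) = y at *
      generalize (q ^ 2) ^ (N * (N + 1)) = z at *
      generalize q ^ N = t at *
      have e1 : q⁻¹ * t * (x⁻¹ * z) ^ 3 * q ^ n = (t * z ^ 3 * q ^ n) * (q⁻¹ * (x⁻¹) ^ 3) := by ring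
      rw [e1, h6]
      field_simp
    rw [e] at h4
    refine h4.trans ?_
    have hw1 : Cg (Reg η) (Φ n) 1 (q ^ n) 1 :=
      ⟨hqn, U.one, by rw [← neg_sub]; exact (I (Reg η) (Φ n) 1).neg_mem hwq⟩
    have h5 := (hw1.pow (6 * b)).mul hw1.inv
    rwa [one_pow, inv_one, one_mul] at h5
  have hκI : 1 - κ ∈ I (Reg η) (Φ n) 1 := hκ1.symm.2.2
  -- the square of `κ`
  set P0 := P n N (q ^ 2) with hP0
  have hκ2 : κ ^ 2 = ((q ^ n)⁻¹) ^ 2 * P0 ^ 3 := by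
    have hq := hq1.2.2
    rw [hκ, hP0]
    unfold P
    have h6 : q ^ N * q ^ N * (q ^ n) ^ 2 = q * q * ((q ^ 2) ^ N) ^ 3 := by
      simp only [← pow_mul, ← pow_add, ← pow_two]
      congr 1
      rw [hn]; ring
    generalize rs n (q ^ 2) (-1) N = ρ at *
    have a1 : q ^ n ≠ 0 := pow_ne_zero _ hq
    generalize (q ^ 2) ^ N = x at *
    generalize q ^ N = t at *
    generalize q ^ n = u at *
    field_simp
    linear_combination ρ ^ 6 * h6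
  -- `hh ≡ q ^ n`
  have hhq : Cg (Reg η) (Φ n) 2 (hh n (q ^ 2)) (q ^ n) := by
    refine ⟨h.U_hh, hqn, ?_⟩
    have e : hh n (q ^ 2) - q ^ n = (2 : RatFunc ℚ)⁻¹ * (1 - q ^ n) ^ 2 := by
      unfold hh
      rw [← pow_mul, mul_comm 2 n, pow_mul]
      field_simp
      ring
    rw [e]
    exact mul_O h.two.2.1 (pow_I hwq 2)
  -- the coefficients
  have hcoef : ∀ j : ℕ, (1 + q) * A j * (1 + 2 * j * (1 - κ)) - c (RatFunc ℚ) j ^ 3 ∈
      I (Reg η) (Φ n) 2 := by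
    intro j
    have h1 : Cg (Reg η) (Φ n) 2 ((1 + q) * A j) (c (RatFunc ℚ) j ^ 3 * κ ^ (2 * j)) := by
      have h2 : (1 + q) * A j = (q ^ n) ^ j * r (q ^ 2) (n * j) ^ 3 := by
        simp only [hA]
        rw [mul_comm, div_mul_cancel₀ _ hu.2.2]
      rw [h2]
      have h3 := (Cg.refl (k := 2) (π := Φ n) (hqn.pow j)).mul ((h.r_block j).pow 3)
      have h4 : Cg (Reg η) (Φ n) 2 ((hh n (q ^ 2))⁻¹ * P0) ((q ^ n)⁻¹ * P0) :=
        (hhq.inv).mul (Cg.refl h.U_P)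
      have h5 := (Cg.refl (k := 2) (π := Φ n) (hqn.pow j)).mul
        (((Cg.refl (k := 2) (π := Φ n) (h.U_c j)).mul (h4.pow j)).pow 3)
      have h6 := h3.trans h5
      have e : (q ^ n) ^ j * (c (RatFunc ℚ) j * ((q ^ n)⁻¹ * P0) ^ j) ^ 3 =
          c (RatFunc ℚ) j ^ 3 * κ ^ (2 * j) := by
        rw [pow_mul, hκ2]
        have a1 : q ^ n ≠ 0 := hqn.2.2
        generalize q ^ n = u at *
        have huv : u * u⁻¹ = 1 := mul_inv_cancel₀ a1
        generalize u⁻¹ = v at *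
        have h7 : u ^ j * v ^ (3 * j) = v ^ (2 * j) := by
          rw [show 3 * j = j + 2 * j by ring, pow_add, ← mul_assoc, ← mul_pow, huv, one_pow,
            one_mul]
        have h8 : u ^ j * (c (RatFunc ℚ) j * (v * P0) ^ j) ^ 3 =
            c (RatFunc ℚ) j ^ 3 * (u ^ j * v ^ (3 * j)) * P0 ^ (3 * j) := by ring
        rw [h8, h7]
        ring
      rw [e] at h6
      exact h6
    have h2 := pow_expand κ hκ1.1.1 hκI (2 * j)
    have hUκ := hκ1.1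
    have h3 : (1 + q) * A j * (1 + 2 * j * (1 - κ)) - c (RatFunc ℚ) j ^ 3 =
        (1 + 2 * j * (1 - κ)) * ((1 + q) * A j - c (RatFunc ℚ) j ^ 3 * κ ^ (2 * j)) +
        (c (RatFunc ℚ) j ^ 3 * (1 + 2 * j * (1 - κ))) *
          (κ ^ (2 * j) - (1 - ((2 * j : ℕ) : RatFunc ℚ) * (1 - κ))) -
        (c (RatFunc ℚ) j ^ 3 * (((2 * j : ℕ) : RatFunc ℚ)) ^ 2) * (1 - κ) ^ 2 := by
      push_cast; ring
    have m1 : 1 + 2 * (j : RatFunc ℚ) * (1 - κ) ∈ Reg η :=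
      (Reg η).add_mem (Reg η).one_mem ((Reg η).mul_mem ((Reg η).mul_mem h.two.1 (nat_O j))
        ((Reg η).sub_mem (Reg η).one_mem hUκ.1))
    have m2 : c (RatFunc ℚ) j ^ 3 ∈ Reg η := ((h.U_c j).pow 3).1
    rw [h3]
    exact (I (Reg η) (Φ n) 2).sub_mem ((I (Reg η) (Φ n) 2).add_mem (mul_O m1 h1.2.2)
      (mul_O ((Reg η).mul_mem m2 m1) h2)) (mul_O ((Reg η).mul_mem m2 ((Reg η).pow_mem (nat_O _) 2))
        (pow_I hκI 2))
  have hF0 := F_zero hη hn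
  rw [← hF] at hF0
  have hFm : F ∈ Reg η := by
    have : Sm (Reg η) (Φ n) 2 0 (fun s => ∑ i ∈ range (N + 1), f n i s) :=
      Sm.sum h.hπ (fun i hi => sm_f hη hn (by have := mem_range.1 hi; omega))
    exact I_zero (this.val 0)
  have hRm : R n ∈ Reg η := by
    have h1 := (Reg η).sub_mem hFm (toO h.hπ hF0)
    have h2 : R n = (1 + q)⁻¹ * (F - (F - (1 + q) * R n)) := by
      have := hu.2.2
      field_simp
      ring
    rw [h2]
    exact (Reg η).mul_mem hu.2.1 h1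
  clear_value F
  have hsum : ∑ j ∈ range m, A j * (F + 2 * j * (F - κ * F)) -
      R n * ∑ k ∈ range m, ((cc k : ℚ) : RatFunc ℚ) ∈ I (Reg η) (Φ n) 2 := by
    rw [mul_sum, ← sum_sub_distrib]
    apply AddSubgroup.sum_mem
    intro j _
    rw [cc_eq]
    have e : A j * (F + 2 * j * (F - κ * F)) - R n * c (RatFunc ℚ) j ^ 3 =
        (A j * (1 + 2 * j * (1 - κ))) * (F - (1 + q) * R n) +
        R n * ((1 + q) * A j * (1 + 2 * j * (1 - κ)) - c (RatFunc ℚ) j ^ 3) := by ring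
    have m1 : 1 + 2 * (j : RatFunc ℚ) * (1 - κ) ∈ Reg η :=
      (Reg η).add_mem (Reg η).one_mem ((Reg η).mul_mem ((Reg η).mul_mem h.two.1 (nat_O j))
        ((Reg η).sub_mem (Reg η).one_mem hκ1.1.1))
    rw [e]
    exact (I (Reg η) (Φ n) 2).add_mem (mul_O ((Reg η).mul_mem (hU j).1 m1) hF0)
      (mul_O hRm (hcoef j))
  have := (I (Reg η) (Φ n) 2).add_mem hm hsum
  convert this using 1
  ring

end loc

theorem result : ∀ m n : ℕ, 1 ≤ m → 1 < n → n % 4 = 1 →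
    cyclotomic n ℚ ^ 2 ∣ RatFunc.num (∑ k ∈ range (m * n), a k - R n * ∑ k ∈ range m,
      ((cc k : ℚ) : RatFunc ℚ)) ∧
    IsCoprime (RatFunc.denom (∑ k ∈ range (m * n), a k - R n * ∑ k ∈ range m,
      ((cc k : ℚ) : RatFunc ℚ))) (cyclotomic n ℚ ^ 2) := by
  intro m n _ hn1 hn4
  have hη := Complex.isPrimitiveRoot_exp n (by omega : n ≠ 0)
  have h1 := local_main hη (show n = 2 * ((n - 1) / 2) + 1 by omega)
    (show (n - 1) / 2 = 2 * ((n - 1) / 4) by omega) m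
  rw [mul_comm n m] at h1
  obtain ⟨h2, h3⟩ := num_dvd (by omega) hη h1
  exact ⟨h2, h3.pow_right⟩

end Pool.Agent.Results.MP_c9c571_nt.Full
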